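import Mathlib

set_option autoImplicit false

open Set Filter Topology

namespace Pool.Agent.H.MP_abcfaf

lemma right {Y : Type*} [TopologicalSpace Y] [LinearOrder Y] [OrderClosedTopology Y]
    [PreconnectedSpace Y] {M x : Y} (hM : IsTop M) {W : Set Y} (w1 : IsCompact W) (w2 : W ∈ 𝓝 x) :
    ∃ y, Icc x y ⊆ W ∧ Iic y ∈ 𝓝 x := by
  have x1 := mem_interior_iff_mem_nhds.2 w2
  have k : ∀ w, x ≤ w → (∀ t ∈ Icc x w, t ∉ frontier W) → Icc x w ⊆ W := fun w a b => by
    have : IsPreconnected (Icc x w) := by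
      convert isPreconnected_range (f := fun t => max x (min w t)) (by fun_prop)
      exact Subset.antisymm (fun t h => ⟨t, by simp [h.1, h.2]⟩)
        (range_subset_iff.2 fun t => ⟨le_max_left _ _, max_le a (min_le_left _ _)⟩)
    exact (this.subset_left_of_subset_union isOpen_interior w1.isClosed.isOpen_compl
      (disjoint_compl_right.mono_left interior_subset) (fun t h => or_iff_not_imp_right.2
        fun e => not_not.1 fun d => b t h ⟨subset_closure (not_not.1 e), d⟩)
          ⟨x, ⟨le_rfl, a⟩, x1⟩).trans interior_subset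
  rcases (frontier W ∩ Ici x).eq_empty_or_nonempty with e | e
  · exact ⟨M, k M (hM x) fun t a b => e.subset ⟨b, a.1⟩, univ_mem' hM⟩
  · obtain ⟨y, y1, y2⟩ := (w1.of_isClosed_subset (isClosed_frontier.inter isClosed_Ici)
      fun t h => w1.isClosed.frontier_subset h.1).exists_isLeast e
    refine ⟨y, fun t h => h.2.eq_or_lt.elim (fun a => a ▸ w1.isClosed.frontier_subset y1.1)
      fun a => k t h.1 (fun s b d => (y2 ⟨d, b.1⟩).not_gt (b.2.trans_lt a)) ⟨h.1, le_rfl⟩,
        Iic_mem_nhds (lt_of_le_of_ne y1.2 fun a => y1.1.2 (a ▸ x1))⟩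

lemma cpt {Y : Type*} [TopologicalSpace Y] [LinearOrder Y] [OrderClosedTopology Y]
    [PreconnectedSpace Y] [LocallyCompactSpace Y] {M m : Y} (hM : IsTop M) (hm : IsBot m) :
    CompactSpace Y := by
  have := ((IsLocallyConstant.iff_eventually_eq fun x : Y => IsCompact (Iic x)).2 fun x => by
    obtain ⟨W, w1, w2⟩ := exists_compact_mem_nhds x
    obtain ⟨y, y1, y2⟩ := right hM w1 w2
    have : PreconnectedSpace Yᵒᵈ := ‹_›
    obtain ⟨z, z1, z2⟩ := right (Y := Yᵒᵈ) (M := m) (x := x) hm w1 w2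
    filter_upwards [y2, z2] with s a b using propext
      ⟨fun h => (h.union w1).of_isClosed_subset isClosed_Iic fun t d => (le_total t s).imp_right
        fun e => z1 ⟨d, le_trans (α := Y) b e⟩, fun h => (h.union w1).of_isClosed_subset isClosed_Iic
          fun t d => (le_total t x).imp_right fun e => y1 ⟨e, d.trans a⟩⟩
    ).apply_eq_of_preconnectedSpace m M
  exact ⟨(this ▸ isCompact_singleton.of_isClosed_subset isClosed_Iic
    fun t h => le_antisymm h (hm t) : IsCompact (Iic M)).of_isClosed_subset isClosed_univ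
      fun t _ => hM t⟩

variable {X : Type*} [TopologicalSpace X]

lemma co [T2Space X] [LocallyCompactSpace X] {x : X} (h : IsCompact (connectedComponent x))
    {O : Set X} (o1 : IsOpen O) (o2 : connectedComponent x ⊆ O) :
    ∃ K, IsCompact K ∧ IsClopen K ∧ x ∈ K ∧ K ⊆ O := by
  obtain ⟨W, w1, w2, w3⟩ := exists_compact_between h o1 o2
  have : CompactSpace W := isCompact_iff_compactSpace.1 w1
  let y : W := ⟨x, interior_subset (w2 mem_connectedComponent)⟩
  obtain ⟨Z, z1, z2, z3⟩ : ∃ Z : Set W, IsClopen Z ∧ y ∈ Z ∧ Z ⊆ Subtype.val ⁻¹' interior W := by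
    obtain ⟨t, ht⟩ := (isOpen_interior.preimage (continuous_subtype_val (p := (· ∈ W)))
      |>.isClosed_compl.isCompact).elim_finite_subfamily_closed
        (fun s : {s : Set W // IsClopen s ∧ y ∈ s} => s.1) (fun s => s.2.1.1) (by
          rw [← connectedComponent_eq_iInter_isClopen]
          exact disjoint_iff_inter_eq_empty.1 (disjoint_left.2 fun a b c => b (w2
            (continuous_subtype_val.image_connectedComponent_subset y ⟨a, c, rfl⟩))))
    exact ⟨⋂ s ∈ t, s.1, isClopen_biInter_finset fun s _ => s.2.1, mem_iInter₂.2 fun s _ => s.2.2,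
      fun a b => not_not.1 fun c => ht.subset ⟨c, b⟩⟩
  have c := z1.1.isCompact.image continuous_subtype_val
  obtain ⟨U, u1, u2⟩ := isOpen_induced_iff.1 z1.2
  refine ⟨_, c, ⟨c.isClosed, ?_⟩, ⟨y, z2, rfl⟩, fun _ ⟨a, _, e⟩ => e ▸ w3 a.2⟩
  convert u1.inter (isOpen_interior (s := W))
  exact Subset.antisymm (fun _ ⟨a, b, e⟩ => e ▸ ⟨u2.ge b, z3 b⟩)
    fun a b => ⟨⟨a, interior_subset b.2⟩, u2.le b.1, rfl⟩

/-- continuous tournament -/
def Tour (r : X → X → Prop) : Prop := (∀ a b, a ≠ b → r a b ∨ r b a) ∧ (∀ a b, r a b → ¬ r b a) ∧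
  IsOpen {p : X × X | r p.1 p.2}

/-- all tournaments have kings -/
def KS (X : Type*) [TopologicalSpace X] : Prop := ∀ r : X → X → Prop, Tour r →
  ∃ z, ∀ x, ∃ y, (y = z ∨ r y z) ∧ (x = y ∨ r x y)

variable {r : X → X → Prop}

lemma Tour.flip (h : Tour r) : Tour (flip r) :=
  ⟨fun a b e => (h.1 a b e).symm, fun a b => h.2.1 b a, h.2.2.preimage continuous_swap⟩
lemma Tour.irr (h : Tour r) (a : X) : ¬ r a a := fun e => h.2.1 a a e e
lemma Tour.up (h : Tour r) (a : X) : IsOpen {y | r a y} := h.2.2.preimage (.prodMk_right a)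
lemma Tour.conn (h : Tour r) {S T : Set X} (s : IsPreconnected S) (t : IsPreconnected T)
    (d : Disjoint S T) {a b : X} (a1 : a ∈ S) (b1 : b ∈ T) (e : r a b) :
    ∀ p ∈ S ×ˢ T, r p.1 p.2 :=
  (s.prod t).subset_left_of_subset_union h.2.2 h.flip.2.2 (disjoint_left.2 fun _ => h.2.1 _ _)
    (fun p k => h.1 _ _ (d.ne_of_mem k.1 k.2)) ⟨(a, b), ⟨a1, b1⟩, e⟩
lemma Tour.clo (h : Tour r) {K : Set X} (k : IsClopen K) {x : X} (e : x ∈ K) :
    IsClopen {y | y ∉ K ∧ r x y} := ⟨⟨by
  convert k.2.union (h.flip.up x) using 1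
  exact Set.ext fun y => ⟨fun a => or_iff_not_imp_left.2 fun b => (h.1 x y fun c =>
    b (c ▸ e)).resolve_left fun c => a ⟨b, c⟩, fun a b => a.elim b.1 (h.2.1 _ _ b.2)⟩⟩,
      k.compl.2.inter (h.up x)⟩

lemma KS.lev (k : KS X) (h : Tour r) {f : X → ℕ} (c : Continuous f) : ∃ z, ∀ x, ∃ y,
    f x ≤ f y ∧ f y ≤ f z ∧ (f y = f z → y = z ∨ r y z) ∧ (f x = f y → x = y ∨ r x y) := by
  obtain ⟨z, hz⟩ := k (fun a b => f a < f b ∨ f a = f b ∧ r a b) ⟨fun a b e => by
    have := h.1 a b e; grind, fun a b => by have := h.2.1 a b; grind,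
      ((isOpen_discrete {p : ℕ × ℕ | p.1 < p.2}).preimage (c.prodMap c)).union
        (((isOpen_discrete {p : ℕ × ℕ | p.1 = p.2}).preimage (c.prodMap c)).inter h.2.2)⟩
  exact ⟨z, fun x => (hz x).imp fun y a => by grind⟩

lemma KS.sub (k : KS X) (h : Tour r) {U : Set X} (u : IsClopen U) : ∃ z, ∀ x ∈ U, z ∈ U ∧ ∃ y ∈ U,
    (y = z ∨ r y z) ∧ (x = y ∨ r x y) := by
  classical
  obtain ⟨z, hz⟩ := k.lev h (f := fun x => if x ∈ U then 1 else 0)
    (continuous_const.if (by simp [u.frontier_eq]) continuous_const)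
  refine ⟨z, fun x a => ?_⟩
  obtain ⟨y, b⟩ := hz x
  grind

lemma KS.acc (k : KS X) (h : Tour r) {B : ℕ → Set X} (b1 : ∀ n, IsClopen (B n))
    (b2 : ∃ᶠ n in atTop, (B n).Nonempty) : ∃ q, ∀ O ∈ 𝓝 q, ∃ᶠ n in atTop, (O ∩ B n).Nonempty := by
  by_contra! e
  simp only [← Nat.cofinite_eq_atTop, eventually_cofinite] at e
  obtain ⟨z, hz⟩ := k.lev h (f := fun x => sSup {n | x ∈ B n})
    ((IsLocallyConstant.iff_eventually_eq _).2 fun x => by
      obtain ⟨O, o1, o2⟩ := e x
      have : ∀ n, ∀ᶠ y in 𝓝 x, y ∈ B n ↔ x ∈ B n := fun n => by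
        by_cases c : x ∈ B n
        exacts [mem_of_superset ((b1 n).2.mem_nhds c) fun _ a => iff_of_true a c,
          mem_of_superset ((b1 n).compl.2.mem_nhds c) fun _ a => iff_of_false a c]
      filter_upwards [o1, o2.eventually_all.2 fun n _ => this n] with y a b
      refine congrArg _ (Set.ext fun n => ?_)
      by_cases c : O ∩ B n = ∅
      exacts [iff_of_false (fun d => c.subset ⟨a, d⟩) fun d => c.subset ⟨mem_of_mem_nhds o1, d⟩,
        b n c]).continuous
  obtain ⟨n, ⟨x, a⟩, b⟩ := (b2.and_eventually (eventually_gt_atTop (sSup {n | z ∈ B n}))).exists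
  obtain ⟨y, c, d, -⟩ := hz x
  obtain ⟨O, o1, o2⟩ := e x
  exact b.not_ge ((le_csSup (o2.subset fun n a e => e.subset ⟨mem_of_mem_nhds o1, a⟩).bddAbove
    a).trans (c.trans d))

lemma Tour.tr (h : Tour r) {C : Set X} (c : IsPreconnected C) {x a b : X} (x1 : x ∈ C) (a1 : a ∈ C)
    (e : r x a) (d : r a b) : r x b := by
  classical
  refine h.conn (c.image (fun y => if r y a then y else a) (continuous_id.if (fun y e =>
    not_not.1 fun k => (h.1 _ _ k).elim (fun k => e.2 ((h.flip.up a).interior_eq.ge k)) fun k =>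
      (mem_closure_iff.1 e.1 _ (h.up a) k).elim fun _ k => h.2.1 _ _ k.1 k.2)
        continuous_const).continuousOn) isPreconnected_singleton (disjoint_singleton_right.2 ?_)
          ⟨a, a1, if_neg (h.irr a)⟩ rfl d (x, b) ⟨⟨x, x1, if_pos e⟩, rfl⟩
  rintro ⟨y, -, k⟩
  dsimp only at k
  split_ifs at k with g
  exacts [h.2.1 _ _ d (k ▸ g), h.irr a (k ▸ d)]

lemma KS.top (k : KS X) (h : Tour r) (x : X) :
    ∃ M ∈ connectedComponent x, ∀ c ∈ connectedComponent x, ¬ r M c := by
  by_contra! e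
  have H : ∀ {r : X → X → Prop}, Tour r → ∀ {y c d}, y ∉ connectedComponent x →
      c ∈ connectedComponent x → d ∈ connectedComponent x → r c y → r d y :=
    fun h y c d a b e f => h.conn isPreconnected_connectedComponent isPreconnected_singleton
      (disjoint_singleton_right.2 a) b rfl f (d, y) ⟨e, rfl⟩
  have m := mem_connectedComponent (x := x)
  have l : ∀ {y}, ¬ (y ∉ connectedComponent x ∧ r x y) → y ∉ connectedComponent x → r y x :=
    fun {y} a b => (h.1 y x fun c => b (c ▸ m)).resolve_right fun c => a ⟨b, c⟩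
  obtain ⟨z, hz⟩ := k.sub h (U := {y | y ∉ connectedComponent x ∧ r x y}ᶜ) 
    ⟨(isClosed_connectedComponent.isOpen_compl.inter (h.up x)).isClosed_compl, isOpen_iff_mem_nhds.2
    fun y a => by
      by_cases b : y ∈ connectedComponent x
      · obtain ⟨c, c1, c2⟩ := e y b
        exact mem_of_superset ((h.flip.up c).mem_nhds c2) fun w d f => h.2.1 _ _ d (H h f.1 m c1 f.2)
      · exact mem_of_superset ((h.flip.up x).mem_nhds (l a b)) fun w d f => h.2.1 _ _ d f.2⟩
  have p : ∀ {y c}, ¬ (y ∉ connectedComponent x ∧ r x y) → c ∈ connectedComponent x →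
      (c = y ∨ r c y) → y ∈ connectedComponent x := fun a b c => not_not.1 fun d =>
    c.elim (fun c => d (c ▸ b)) fun c => h.2.1 _ _ c (H h.flip d m b (l a d))
  obtain ⟨z1, y, y1, y2, y3⟩ := hz x fun a => a.1 m
  obtain ⟨c, c1, c2⟩ := e z (p z1 (p y1 m y3) y2)
  obtain ⟨-, w, w1, w2, w3⟩ := hz c fun a => a.1 c1
  rcases w2 with rfl | w2 <;> rcases w3 with rfl | w3
  exacts [h.irr _ c2, h.2.1 _ _ c2 w3, h.2.1 _ _ c2 w2,
    h.2.1 _ _ c2 (h.tr isPreconnected_connectedComponent c1 (p w1 c1 (.inr w3)) w3 w2)]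

lemma KS.comp [T2Space X] [LocallyCompactSpace X] (k : KS X) (h : Tour r) (x : X) :
    IsCompact (connectedComponent x) := by
  classical
  let s : connectedComponent x → connectedComponent x → Prop := fun a b => r a b
  have : IsStrictTotalOrder _ s :=
    { trichotomous := fun a b c d => Subtype.ext (not_not.1 fun e => (h.1 _ _ e).elim c d)
      irrefl := fun a => h.irr _
      trans := fun a b c => h.tr isPreconnected_connectedComponent a.2 b.2 }
  let _ := linearOrderOfSTO s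
  have : OrderClosedTopology (connectedComponent x) := ⟨⟨by
    convert h.flip.2.2.preimage (continuous_subtype_val.prodMap continuous_subtype_val)
    exact Set.ext fun p => not_le (a := p.1) (b := p.2)⟩⟩
  have := isClosed_connectedComponent (x := x).locallyCompactSpace
  have := Subtype.preconnectedSpace (isPreconnected_connectedComponent (x := x))
  obtain ⟨M, m1, m2⟩ := k.top h x
  obtain ⟨N, n1, n2⟩ := k.top h.flip x
  exact isCompact_iff_compactSpace.2 (cpt (M := ⟨M, m1⟩) (m := ⟨N, n1⟩)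
    (fun c => not_lt.1 (m2 _ c.2)) fun c => not_lt.1 (n2 _ c.2))

end Pool.Agent.H.MP_abcfaf
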