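import Pool.Agent.H.MP_abcfaf.A

set_option autoImplicit false

open Set Filter Topology

namespace Pool.Agent.H.MP_abcfaf

variable {X : Type*} [TopologicalSpace X] {r : X → X → Prop}

lemma Tour.pat (h : Tour r) {A B : ℕ → Set X} (h1 : ∀ n, ∀ a ∈ A n, ∀ b ∈ B n, r b a)
    (h2 : ∀ m n, m < n → ∀ a ∈ A n, ∀ b ∈ B m, r a b) {p q : X} (e : p ≠ q)
    (j : ∀ O ∈ 𝓝 p, ∀ P ∈ 𝓝 q, ∃ᶠ n in atTop, (O ∩ A n).Nonempty ∧ (P ∩ B n).Nonempty) : False := by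
  rcases h.1 p q e with k | k
  · obtain ⟨O, o, P, d, f⟩ := mem_nhds_prod_iff.1 (h.2.2.mem_nhds (x := (p, q)) k)
    obtain ⟨n, ⟨a, a1⟩, b, b1⟩ := (j O o P d).exists
    exact h.2.1 _ _ (h1 n a a1.2 b b1.2) (@f (a, b) ⟨a1.1, b1.1⟩)
  · obtain ⟨P, d, O, o, f⟩ := mem_nhds_prod_iff.1 (h.2.2.mem_nhds (x := (q, p)) k)
    obtain ⟨m, -, b, b1⟩ := (j O o P d).exists
    obtain ⟨n, ⟨⟨a, a1⟩, -⟩, g⟩ := ((j O o P d).and_eventually (eventually_gt_atTop m)).exists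
    exact h.2.1 _ _ (h2 m n g a a1.2 b b1.2) (@f (b, a) ⟨b1.1, a1.1⟩)

variable [T2Space X] [LocallyCompactSpace X]

lemma KS.unif (k : KS X) (h : Tour r) {K : Set X} (k1 : IsCompact K) (k2 : IsClopen K) {x : X}
    (e : x ∈ K) : ∀ᶠ a in 𝓝 x, ∀ y, y ∉ K ∧ r x y → r a y := by
  by_contra c
  have : ∀ N : {N // N ∈ 𝓝 x}, ∃ (a : X) (B : Set X) (M : {N // N ∈ 𝓝 x}), a ∈ N.1 ∧ a ∈ K ∧
      IsClopen B ∧ B.Nonempty ∧ B ⊆ Kᶜ ∧ (∀ b ∈ B, r b a) ∧ M.1 ⊆ N.1 ∧ ∀ a ∈ M.1, ∀ b ∈ B, r a b := by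
    rintro ⟨N, n⟩
    obtain ⟨a, a1, a2, a3⟩ := ((not_eventually.1 c).and_eventually
      (Eventually.and n (k2.2.mem_nhds e))).exists
    push Not at a1
    obtain ⟨y, y1, y2⟩ := a1
    have := (h.clo k2 e).inter (h.flip.clo k2 a3)
    obtain ⟨B, b1, b2, b3, b4⟩ := co (k.comp h y) this.2 (this.connectedComponent_subset
      ⟨y1, y1.1, (h.1 a y fun c => y1.1 (c ▸ a3)).resolve_left y2⟩)
    exact ⟨a, B, ⟨_, inter_mem n (b1.eventually_forall_of_forall_eventually (P := r) fun b d =>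
      h.2.2.mem_nhds (x := (x, b)) (b4 d).1.2)⟩, a2, a3, b2, ⟨y, b3⟩, fun _ d => (b4 d).1.1,
        fun _ d => (b4 d).2.2, inter_subset_left, fun _ d => d.2⟩
  choose a B f h1 h2 h3 h4 h5 h6 h7 h8 using this
  let N : ℕ → {N // N ∈ 𝓝 x} := fun n => Nat.rec ⟨univ, univ_mem⟩ (fun _ => f) n
  have m : Antitone fun n => (N n).1 := antitone_nat_of_succ_le fun n => h7 _
  obtain ⟨q, hq⟩ := k.acc h (fun n => h3 (N n)) (.of_forall fun n => h4 _)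
  have : NeBot (atTop ⊓ (𝓝 q).lift' fun P => {n | (P ∩ B (N n)).Nonempty}) :=
    (atTop.basis_sets.inf_basis_neBot_iff ((𝓝 q).basis_sets.lift'
      (h := fun P => {n | (P ∩ B (N n)).Nonempty}) fun P Q d n =>
      Nonempty.mono (inter_subset_inter_left _ d))).2 fun _ a P b =>
        (Eventually.and_frequently a (hq P b)).exists
  obtain ⟨p, p1, p2⟩ := k1.exists_mapClusterPt (f := atTop ⊓ (𝓝 q).lift' fun P =>
    {n | (P ∩ B (N n)).Nonempty}) (u := fun n => a (N n)) (le_principal_iff.2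
      (mem_map.2 (univ_mem' fun n => h2 _)))
  refine h.pat (A := fun n => {a (N n)}) (B := fun n => B (N n)) (fun n _ e => e ▸ h6 _)
    (fun i n d _ e => e ▸ h8 _ _ (m d (h1 _))) (p := p) (q := q) (fun d => ?_) fun O o P d => ?_
  · obtain ⟨n, y, y1, y2⟩ := (hq K (k2.2.mem_nhds (d ▸ p1))).exists
    exact h5 _ y2 y1
  · exact ((mapClusterPt_iff_frequently.1 p2 O o).and_eventually (mem_inf_of_right
      (mem_lift' d))).filter_mono inf_le_left |>.mono fun n c => ⟨⟨_, c.1, rfl⟩, c.2⟩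

lemma KS.opn (k : KS X) (h : Tour r) {u : Filter X} (u1 : u ≤ cocompact X) {x : X}
    (e : ∀ᶠ y in u, r x y) : ∃ V ∈ u, IsClopen V ∧ ∀ᶠ a in 𝓝 x, ∀ y ∈ V, r a y := by
  obtain ⟨K, k1, k2, k3, -⟩ := co (k.comp h x) isOpen_univ (subset_univ _)
  exact ⟨_, Eventually.and (u1 k1.compl_mem_cocompact) e, h.clo k2 k3, k.unif h k1 k2 k3⟩

lemma KS.cmp (k : KS X) (h : Tour r) {u : Filter X} (u1 : u ≤ cocompact X) {A : Set X}
    (a1 : IsCompact A) (e : ∀ x ∈ A, ∀ᶠ y in u, r x y) :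
    ∃ V ∈ u, IsClopen V ∧ ∀ a ∈ A, ∀ y ∈ V, r a y :=
  a1.induction_on (p := fun A => ∃ V ∈ u, IsClopen V ∧ ∀ a ∈ A, ∀ y ∈ V, r a y)
    ⟨_, univ_mem, isClopen_univ, by simp⟩ (fun _ _ a ⟨V, b, c, d⟩ => ⟨V, b, c, fun x e => d x (a e)⟩)
    (fun _ _ ⟨V, b, c, d⟩ ⟨W, e, f, g⟩ => ⟨_, inter_mem b e, c.inter f, fun x h y i =>
      h.elim (d x · y i.1) (g x · y i.2)⟩) fun x a => (k.opn h u1 (e x a)).elim fun V b =>
        ⟨_, mem_nhdsWithin_of_mem_nhds b.2.2, V, b.1, b.2.1, fun _ => id⟩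

lemma KS.no (k : KS X) (h : Tour r) {u : Ultrafilter X} (u1 : ↑u ≤ cocompact X)
    (u2 : ∀ᶠ x in u, ∀ᶠ y in u, r x y) : False := by
  have o : ∀ {r : X → X → Prop}, Tour r → IsOpen {x | ∀ᶠ y in u, r x y} := fun h =>
    isOpen_iff_mem_nhds.2 fun x e => (k.opn h u1 e).elim fun V a =>
      a.2.2.mono fun _ b => mem_of_superset a.1 b
  have c : IsClopen {x | ∀ᶠ y in u, r x y} := ⟨⟨by
    convert o h.flip using 1
    exact Set.ext fun x => Ultrafilter.eventually_not.symm.trans (eventually_congr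
      (mem_of_superset (u1 (isCompact_singleton (x := x)).compl_mem_cocompact) fun y a =>
        ⟨fun b => (h.1 y x a).resolve_right b, h.2.1 _ _⟩))⟩, o h⟩
  obtain ⟨z, hz⟩ := k.sub h c
  obtain ⟨R, r1, r2, r3⟩ := k.opn h u1 (hz _ u2.exists.choose_spec).1
  replace r3 := r3.self_of_nhds
  have : ∀ V : {V // V ∈ u ∧ IsClopen V ∧ V ⊆ R ∩ {x | ∀ᶠ y in u, r x y}}, ∃ (A B : Set X)
      (W : {V // V ∈ u ∧ IsClopen V ∧ V ⊆ R ∩ {x | ∀ᶠ y in u, r x y}}), IsClopen A ∧ A.Nonempty ∧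
      A ⊆ Rᶜ ∧ IsClopen B ∧ B.Nonempty ∧ B ⊆ V.1 ∧ (∀ a ∈ A, ∀ b ∈ B, r b a) ∧ W.1 ⊆ V.1 ∧
        ∀ a ∈ A ∪ B, ∀ w ∈ W.1, r a w := by
    rintro ⟨V, v1, v2, v3⟩
    obtain ⟨x, hx⟩ := u.nonempty_of_mem v1
    obtain ⟨-, y, y1, y2, y3⟩ := hz x (v3 hx).2
    have y4 : y ∉ R := fun e => y2.elim (fun a => h.irr _ (a ▸ r3 y e)) (h.2.1 _ _ (r3 y e))
    obtain ⟨O, P, o, p, a, b, d⟩ := generalized_tube_lemma (k.comp h x) (k.comp h y) h.2.2
      (h.conn isPreconnected_connectedComponent isPreconnected_connectedComponent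
        (disjoint_compl_right.mono (r2.connectedComponent_subset (v3 hx).1)
          (r2.compl.connectedComponent_subset y4)) mem_connectedComponent mem_connectedComponent
            (y3.resolve_left fun e => y4 (e ▸ (v3 hx).1)))
    obtain ⟨A, a1, a2, a3, a4⟩ := co (k.comp h y) (p.inter (r2.compl.inter c).2)
      (subset_inter b ((r2.compl.inter c).connectedComponent_subset ⟨y4, y1⟩))
    obtain ⟨B, b1, b2, b3, b4⟩ := co (k.comp h x) (o.inter v2.2)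
      (subset_inter a (v2.connectedComponent_subset hx))
    obtain ⟨W, w1, w2, w3⟩ := k.cmp h u1 (a1.union b1) fun t e => e.elim (fun e => (a4 e).2.2)
      fun e => (v3 (b4 e).2).2
    exact ⟨A, B, ⟨_, inter_mem v1 w1, v2.inter w2, inter_subset_left.trans v3⟩, a2, ⟨y, a3⟩,
      fun _ e => (a4 e).2.1, b2, ⟨x, b3⟩, fun _ e => (b4 e).2, fun s e t f =>
        @d (t, s) ⟨(b4 f).1, (a4 e).1⟩, inter_subset_left, fun s e t f => w3 s e t f.2⟩
  choose A B f a1 a2 a3 b1 b2 b3 ab f1 f2 using this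
  let V : ℕ → {V // V ∈ u ∧ IsClopen V ∧ V ⊆ R ∩ {x | ∀ᶠ y in u, r x y}} := fun n =>
    Nat.rec ⟨_, inter_mem r1 u2, r2.inter c, subset_rfl⟩ (fun _ => f) n
  have m : Antitone fun n => (V n).1 := antitone_nat_of_succ_le fun n => f1 _
  have l : ∀ {i n}, i < n → ∀ a ∈ A (V i) ∪ B (V i), ∀ b ∈ B (V n), r a b := fun d a e b g =>
    f2 _ a e b (m d (b3 _ g))
  have un : ∀ {r' : X → X → Prop} {q q'}, (r' q q' → ∀ᶠ p : X × X in 𝓝 (q, q'), r p.1 p.2) →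
      (∀ O ∈ 𝓝 q, ∃ᶠ n in atTop, (O ∩ B (V n)).Nonempty) →
      (∀ O ∈ 𝓝 q', ∃ᶠ n in atTop, (O ∩ B (V n)).Nonempty) → ¬ r' q q' := fun e a b d => by
    obtain ⟨O, o, P, p, g⟩ := mem_nhds_prod_iff.1 (e d)
    obtain ⟨i, s, s1⟩ := (b P p).exists
    obtain ⟨n, ⟨t, t1⟩, j⟩ := ((a O o).and_eventually (eventually_gt_atTop i)).exists
    exact h.2.1 _ _ (l j s (.inr s1.2) t t1.2) (@g (t, s) ⟨t1.1, s1.1⟩)
  have uq : ∀ {q q'}, (∀ O ∈ 𝓝 q, ∃ᶠ n in atTop, (O ∩ B (V n)).Nonempty) →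
      (∀ O ∈ 𝓝 q', ∃ᶠ n in atTop, (O ∩ B (V n)).Nonempty) → q = q' := fun a b => not_not.1 fun e =>
    (h.1 _ _ e).elim (un (fun d => h.2.2.mem_nhds d) a b) (un (fun d => h.2.2.mem_nhds d) b a)
  obtain ⟨q, hq⟩ := k.acc h (fun n => b1 (V n)) (.of_forall fun n => b2 _)
  obtain ⟨p, hp⟩ := k.acc h (fun n => a1 (V n)) (.of_forall fun n => a2 _)
  obtain ⟨Q, q1, q2, q3, -⟩ := co (k.comp h q) isOpen_univ (subset_univ _)
  have e : ∀ᶠ n in atTop, ¬ (B (V n) ∩ Qᶜ).Nonempty := not_frequently.1 fun e => by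
    obtain ⟨s, hs⟩ := k.acc h (fun n => (b1 (V n)).inter q2.compl) e
    obtain ⟨n, t, t1⟩ := (hs Q (q2.2.mem_nhds (uq hq (fun O o => (hs O o).mono fun n =>
      Nonempty.mono (inter_subset_inter_right _ inter_subset_left)) ▸ q3))).exists
    exact t1.2.2 t1.1
  choose b hb using fun n => b2 (V n)
  have t : Tendsto b atTop (𝓝 q) := q1.tendsto_nhds_of_unique_mapClusterPt
    (e.mono fun n a => not_not.1 fun d => a ⟨_, hb n, d⟩) fun s _ a => uq (fun O o =>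
      (mapClusterPt_iff_frequently.1 a O o).mono fun n d => ⟨_, d, hb n⟩) hq
  refine h.flip.pat (A := fun n => B (V n)) (B := fun n => A (V n)) (fun n s d t e => ab _ t e s d)
    (fun i n d s e t g => l d t (.inl g) s e) (p := q) (q := p) (fun d => ?_) fun O o P d =>
      ((hp P d).and_eventually (t o)).mono fun n g => ⟨⟨_, g.2, hb n⟩, g.1⟩
  obtain ⟨n, s, s1⟩ := (hp R (r2.2.mem_nhds (d ▸ r2.1.mem_of_tendsto t
    (.of_forall fun n => ((V n).2.2.2 (b3 _ (hb n))).1)))).exists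
  exact a3 _ s1.2 s1.1

theorem KS.main (k : KS X) (h : Tour r) : CompactSpace X := by
  by_contra c
  rw [not_compactSpace_iff] at c
  let u := Ultrafilter.of (cocompact X)
  have u1 : ↑u ≤ cocompact X := Ultrafilter.of_le _
  rcases u.em fun x => ∀ᶠ y in u, r x y with e | e
  · exact k.no h u1 e
  · exact k.no h.flip u1 (e.mono fun x a => ((Ultrafilter.eventually_not.2 a).and
      (u1 (isCompact_singleton (x := x)).compl_mem_cocompact)).mono fun y b =>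
        (h.1 y x b.2).resolve_right b.1)

end Pool.Agent.H.MP_abcfaf
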